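import Pool.Agent.H73.P2.Rl
import Pool.Agent.H11.Ramif

/-!
Project MP_78d38b_MG (helper36, no row): ramification and splitting in a compositum.
-/

set_option autoImplicit false
set_option linter.unusedSectionVars false
open scoped Classical

open WithZero NumberField IsDedekindDomain H38RT
open H38T1 (SC sc scu rep eo la si Pri OddP tp unif)
open H76PP H73P2

namespace H36AB

section Ram

variable {K N : Type} [Field K] [NumberField K] [Field N] [NumberField N] [Algebra K N]

private lemma Ur_V {F : Type} [Field F] {V : Valuation F (WithZero (Multiplicative ℤ))} {x : F}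
    (hx : x ≠ 0) : V x = exp (- ord V x) := by
  unfold ord
  rw [neg_neg, exp_log ((Valuation.ne_zero_iff V).2 hx)]

/-- An integral uniformizer. -/
private lemma Ur_unif {F : Type} [Field F] [NumberField F] (v : HeightOneSpectrum (𝓞 F)) :
    ∃ p : 𝓞 F, p ∈ v.asIdeal ∧ (p : F) ≠ 0 ∧ v.valuation F (p : F) = exp (-1 : ℤ) := by
  obtain ⟨p, hp⟩ := v.intValuation_exists_uniformizer
  have h1 : v.valuation F (p : F) = exp (-1 : ℤ) := by
    have h2 : v.valuation F (algebraMap (𝓞 F) F p) = v.intValuation p :=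
      v.valuation_of_algebraMap p
    rw [← hp, ← h2]
  refine ⟨p, ?_, ?_, h1⟩
  · rw [← v.valuation_lt_one_iff_mem (K := F)]
    change v.valuation F (p : F) < 1
    rw [h1, ← exp_zero, exp_lt_exp]
    norm_num
  · intro h0
    rw [h0, map_zero] at h1
    exact exp_ne_zero h1.symm

theorem not_ram_of_val {V : HeightOneSpectrum (𝓞 N)}
    (h : ∀ x : K, V.valuation N (algebraMap K N x) = (dn K V).valuation K x) : ¬ Ram K V := by
  intro hR
  obtain ⟨p, hp, hp0, hpv⟩ := Ur_unif (dn K V)
  have h1 : algebraMap (𝓞 K) (𝓞 N) p ∈ V.asIdeal ^ 2 := hR (Ideal.mem_map_of_mem _ hp)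
  rw [← V.intValuation_le_pow_iff_mem, ← HeightOneSpectrum.valuation_of_algebraMap (K := N)] at h1
  change V.valuation N (algebraMap K N (p : K)) ≤ _ at h1
  rw [h, hpv, exp_le_exp] at h1
  norm_num at h1

theorem not_ram_of_ord {V : HeightOneSpectrum (𝓞 N)} (h : ∀ x : K, x ≠ 0 →
    ord (V.valuation N) (algebraMap K N x) = ord ((dn K V).valuation K) x) : ¬ Ram K V := by
  apply not_ram_of_val
  intro x
  by_cases hx : x = 0
  · rw [hx, map_zero, map_zero, map_zero]
  · rw [Ur_V hx, Ur_V ((map_ne_zero (algebraMap K N)).2 hx), h x hx]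

/-- Unramified means that the inertia group is trivial. -/
theorem inertia_iff [IsGalois K N] {V : HeightOneSpectrum (𝓞 N)} :
    ¬ Ram K V ↔ V.asIdeal.inertia (N ≃ₐ[K] N) = ⊥ := by
  have hfd : FiniteDimensional K N := Module.Finite.of_restrictScalars_finite ℚ K N
  have hG : IsGaloisGroup (N ≃ₐ[K] N) (𝓞 K) (𝓞 N) := IsGaloisGroup.of_isFractionRing _ _ _ K N
  have hlo : V.asIdeal.LiesOver (dn K V).asIdeal := ⟨rfl⟩
  have hf : Finite (𝓞 K ⧸ (dn K V).asIdeal) := by
    apply Nat.finite_of_card_ne_zero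
    exact (Ideal.absNorm_eq_zero_iff.not).2 (dn K V).ne_bot
  have key := fun x : K => Pool.Agent.H11.valuation_pow_card_inertia N (dn K V) V (N ≃ₐ[K] N) hf x
  constructor
  · intro h
    obtain ⟨p, hp, hp0, hpv⟩ := Ur_unif (dn K V)
    have h1 := key (p : K)
    have h2 := unram_ord h hp0
    have h3 : V.valuation N (algebraMap K N (p : K)) = exp (-1 : ℤ) := by
      rw [Ur_V ((map_ne_zero (algebraMap K N)).2 hp0), h2, ← Ur_V hp0, hpv]
    rw [h3, hpv, ← exp_nsmul, exp_inj] at h1
    have h4 : Nat.card (V.asIdeal.inertia (N ≃ₐ[K] N)) = 1 := by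
      simp only [nsmul_eq_mul, mul_neg, mul_one] at h1
      omega
    exact Subgroup.card_eq_one.1 h4
  · intro h
    apply not_ram_of_val
    intro x
    have h4 : Nat.card (V.asIdeal.inertia (N ≃ₐ[K] N)) = 1 := by
      rw [h]
      exact Subgroup.card_bot
    have h1 := key x
    rw [h4, pow_one] at h1
    exact h1.symm

end Ram

section Comp

variable {K L F N : Type} [Field K] [NumberField K] [Field L] [NumberField L] [Field F]
  [NumberField F] [Field N] [NumberField N] [Algebra K L] [Algebra K F] [Algebra K N]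
  [Algebra L N] [Algebra F N] [IsScalarTower K L N] [IsScalarTower K F N] [IsGalois K L]
  [IsGalois K F] [IsGalois K N]

private theorem Ur_res {V : HeightOneSpectrum (𝓞 N)} {σ : N ≃ₐ[K] N}
    (hσ : σ ∈ V.asIdeal.inertia (N ≃ₐ[K] N)) (h : ¬ Ram K (dn L V)) (x : L) :
    σ (algebraMap L N x) = algebraMap L N x := by
  have h1 : σ.restrictNormal L ∈ (dn L V).asIdeal.inertia (L ≃ₐ[K] L) := by
    intro y
    change algebraMap (𝓞 L) (𝓞 N) (σ.restrictNormal L • y - y) ∈ V.asIdeal
    have h2 : algebraMap (𝓞 L) (𝓞 N) (σ.restrictNormal L • y - y) =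
        σ • (algebraMap (𝓞 L) (𝓞 N) y) - algebraMap (𝓞 L) (𝓞 N) y := by
      rw [map_sub]
      congr 1
      apply RingOfIntegers.coe_injective
      exact AlgEquiv.restrictNormal_commutes σ L (y : L)
    rw [h2]
    exact hσ _
  rw [inertia_iff.1 h] at h1
  have h3 : σ.restrictNormal L = 1 := Subgroup.mem_bot.1 h1
  rw [← AlgEquiv.restrictNormal_commutes σ L x, h3]
  rfl

/-- **The compositum of two extensions which are unramified at `V` is unramified at `V`.** -/
theorem unram_comp (hgen : ∀ g : N ≃ₐ[K] N, (∀ x : L, g (algebraMap L N x) = algebraMap L N x) →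
    (∀ x : F, g (algebraMap F N x) = algebraMap F N x) → g = 1) {V : HeightOneSpectrum (𝓞 N)}
    (h1 : ¬ Ram K (dn L V)) (h2 : ¬ Ram K (dn F V)) : ¬ Ram K V := by
  rw [inertia_iff, eq_bot_iff]
  intro σ hσ
  rw [Subgroup.mem_bot]
  exact hgen σ (Ur_res hσ h1) (Ur_res hσ h2)

/-- **Splitting in a compositum.** -/
theorem split_comp (hgen : ∀ g : N ≃ₐ[K] N, (∀ x : L, g (algebraMap L N x) = algebraMap L N x) →
    (∀ x : F, g (algebraMap F N x) = algebraMap F N x) → g = 1) {C : Type} [Field C]
    (i : K →+* C) (h1 : ∃ ι : L →+* C, ∀ x : K, ι (algebraMap K L x) = i x)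
    (h2 : ∃ ι : F →+* C, ∀ x : K, ι (algebraMap K F x) = i x) :
    ∃ ι : N →+* C, ∀ x : K, ι (algebraMap K N x) = i x := by
  have hfd : FiniteDimensional K N := Module.Finite.of_restrictScalars_finite ℚ K N
  let _ : Algebra K C := i.toAlgebra
  obtain ⟨ι₁, hι₁⟩ := h1
  obtain ⟨ι₂, hι₂⟩ := h2
  have hKC : ∀ x : K, algebraMap K C x = i x := fun _ => rfl
  obtain ⟨j⟩ : Nonempty (N →ₐ[K] AlgebraicClosure C) :=
    ⟨IsAlgClosed.lift (R := K) (S := N) (M := AlgebraicClosure C)⟩
  have hj : ∀ x : K, j (algebraMap K N x) = algebraMap C (AlgebraicClosure C) (i x) := by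
    intro x
    rw [AlgHom.commutes, IsScalarTower.algebraMap_apply K C (AlgebraicClosure C), hKC]
  -- images of normal subfields
  have key : ∀ (L : Type) [Field L] [NumberField L] [Algebra K L] [Algebra L N]
      [IsScalarTower K L N] [IsGalois K L] (ι : L →+* C), (∀ x : K, ι (algebraMap K L x) = i x) →
      ∀ x : L, j (algebraMap L N x) ∈ (algebraMap C (AlgebraicClosure C)).range := by
    intro L _ _ _ _ _ _ ι hι x
    let _ : Algebra L (AlgebraicClosure C) := ((algebraMap C (AlgebraicClosure C)).comp ι).toAlgebra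
    have _ : IsScalarTower K L (AlgebraicClosure C) := IsScalarTower.of_algebraMap_eq fun x => by
      rw [IsScalarTower.algebraMap_apply K C (AlgebraicClosure C), hKC, ← hι]
      rfl
    have h3 := AlgHom.restrictNormal_commutes j L x
    rw [← h3]
    exact ⟨ι (j.restrictNormal L x), rfl⟩
  let E : IntermediateField K N :=
    { carrier := {x | j x ∈ (algebraMap C (AlgebraicClosure C)).range}
      mul_mem' := fun {a b} ha hb => by
        rw [Set.mem_setOf_eq, map_mul]
        exact mul_mem ha hb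
      add_mem' := fun {a b} ha hb => by
        rw [Set.mem_setOf_eq, map_add]
        exact add_mem ha hb
      algebraMap_mem' := fun x => ⟨i x, (hj x).symm⟩
      inv_mem' := fun a ha => by
        obtain ⟨c, hc⟩ := ha
        exact ⟨c⁻¹, by rw [map_inv₀, map_inv₀, hc]⟩ }
  have hE : ∀ x, x ∈ E ↔ j x ∈ (algebraMap C (AlgebraicClosure C)).range := fun _ => Iff.rfl
  have hfix : E.fixingSubgroup = ⊥ := by
    rw [eq_bot_iff]
    intro g hg
    rw [IntermediateField.mem_fixingSubgroup_iff] at hg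
    rw [Subgroup.mem_bot]
    exact hgen g (fun x => hg _ ((hE _).2 (key L ι₁ hι₁ x)))
      (fun x => hg _ ((hE _).2 (key F ι₂ hι₂ x)))
  have htop : ∀ x : N, x ∈ E := by
    intro x
    rw [← IsGalois.fixedField_fixingSubgroup E, hfix, IntermediateField.mem_fixedField_iff]
    intro g hg
    rw [Subgroup.mem_bot.1 hg]
    rfl
  obtain ⟨e, he⟩ : ∃ e : C ≃+* (algebraMap C (AlgebraicClosure C)).range,
      ∀ c, ((e c : (algebraMap C (AlgebraicClosure C)).range) : AlgebraicClosure C) =
        algebraMap C (AlgebraicClosure C) c :=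
    ⟨RingEquiv.ofBijective (algebraMap C (AlgebraicClosure C)).rangeRestrict
      ⟨fun a b hab => (algebraMap C (AlgebraicClosure C)).injective (congrArg Subtype.val hab),
        (algebraMap C (AlgebraicClosure C)).rangeRestrict_surjective⟩, fun _ => rfl⟩
  refine ⟨(e.symm : (algebraMap C (AlgebraicClosure C)).range →+* C).comp
    ((j : N →+* AlgebraicClosure C).codRestrict _ fun x => (hE x).1 (htop x)), fun x => ?_⟩
  apply e.injective
  have h5 : ∀ y : (algebraMap C (AlgebraicClosure C)).range,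
      e ((e.symm : (algebraMap C (AlgebraicClosure C)).range →+* C) y) = y := fun y =>
    e.apply_symm_apply y
  rw [RingHom.comp_apply, h5]
  apply Subtype.ext
  rw [he]
  exact hj x

end Comp

section Down

variable {K M N : Type} [Field K] [NumberField K] [Field M] [NumberField M] [Field N]
  [NumberField N] [Algebra K M] [Algebra K N] [Algebra M N] [IsScalarTower K M N]

/-- **Subextensions are unramified.** -/
theorem unram_down {V : HeightOneSpectrum (𝓞 N)} (h : ¬ Ram K V) : ¬ Ram K (dn M V) := by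
  obtain ⟨-, h2⟩ := unram_mid (k := M) h
  apply not_ram_of_ord
  intro x hx
  have h3 : dn K (dn M V) = dn K V := dn_dn V
  rw [h3]
  exact h2 x hx

/-- **The class of an element which becomes a square has even order.** -/
theorem eo_of_sq {V : HeightOneSpectrum (𝓞 N)} (h : ¬ Ram K V) {μ : M} (hμ : μ ≠ 0)
    (hsq : IsSquare (algebraMap M N μ)) : eo (dn M V) (sc μ) = 0 := by
  obtain ⟨h1, -⟩ := unram_mid (k := M) h
  obtain ⟨s, hs⟩ := hsq
  have hs0 : s ≠ 0 := by
    rintro rfl
    rw [mul_zero] at hs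
    exact hμ ((map_eq_zero _).1 hs)
  rw [H38T1.eo_sc hμ, ← h1 μ hμ, hs, ord_mul hs0 hs0, Int.cast_add]
  exact CharTwo.add_self_eq_zero _

/-- Both statements for all places of `M` above `v`. -/
theorem unram_all {v : HeightOneSpectrum (𝓞 K)}
    (h : ∀ V : HeightOneSpectrum (𝓞 N), dn K V = v → ¬ Ram K V) {μ : M} (hμ : μ ≠ 0)
    (hsq : IsSquare (algebraMap M N μ)) (W : HeightOneSpectrum (𝓞 M)) (hW : dn K W = v) :
    ¬ Ram K W ∧ eo W (sc μ) = 0 := by
  obtain ⟨V, rfl⟩ := exists_above (L := N) W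
  have h1 : dn K V = v := by
    rw [← hW]
    exact (dn_dn V).symm
  exact ⟨unram_down (h V h1), eo_of_sq (h V h1) hμ hsq⟩

end Down

end H36AB
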