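import Pool.Agent.H73.P2.Rl
import Pool.Agent.H36.MT.Eq

/-!
Project MP_78d38b_MG (helper36, no row): descent of evenness through an odd place which is unramified in `M`.
-/

set_option autoImplicit false
set_option linter.unusedSectionVars false
open scoped Classical

open WithZero NumberField IsDedekindDomain H38RT
open H38T1 (SC sc scu rep eo la si Pri OddP tp unif)
open H76PP H73P2

namespace H88AB

private lemma Ev_surj {K k : Type} [Field K] [NumberField K] [Field k] [NumberField k] [Algebra K k]
    (h1 : Module.finrank K k = 1) : Function.Surjective (algebraMap K k) := by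
  rw [Algebra.surjective_algebraMap_iff]
  exact (Subalgebra.bot_eq_top_iff_finrank_eq_one.2 h1).symm

/-- The base of the induction: `k / K` of degree one. -/
private theorem Ev_base {K k : Type} [Field K] [NumberField K] [Field k] [NumberField k]
    [Algebra K k] (h1 : Module.finrank K k = 1) {a b : K} {v : HeightOneSpectrum (𝓞 K)}
    {L : Type} [Field L] [NumberField L] [Algebra K L] {θ : L} (h : Cub K L a b θ)
    {δ : Fin 3 → K} (hδ : ev θ δ ≠ 0) {w : HeightOneSpectrum (𝓞 L)} (hw : dn K w = v)
    (L' : Type) [Field L'] [NumberField L'] [Algebra k L'] (θ' : L')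
    (h' : Cub k L' (algebraMap K k a) (algebraMap K k b) θ')
    (he : ∀ W' : HeightOneSpectrum (𝓞 L'), dn K (dn k W') = v →
      eo W' (sc (ev θ' (fun i => algebraMap K k (δ i)))) = 0) : eo w (sc (ev θ δ)) = 0 := by
  have hs := Ev_surj h1
  let _ : Algebra K L' := ((algebraMap k L').comp (algebraMap K k)).toAlgebra
  have _ : IsScalarTower K k L' := IsScalarTower.of_algebraMap_eq fun _ => rfl
  have hal : ∀ x : K, algebraMap K L' x = algebraMap k L' (algebraMap K k x) := fun _ => rfl
  have hcub : Cub K L' a b θ' := by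
    refine ⟨?_, ?_, ?_⟩
    · rw [hal, hal]
      exact h'.root
    · intro c₀ c₁ c₂ hc
      rw [hal, hal, hal] at hc
      obtain ⟨e0, e1, e2⟩ := h'.li _ _ _ hc
      exact ⟨(map_eq_zero _).1 e0, (map_eq_zero _).1 e1, (map_eq_zero _).1 e2⟩
    · intro x
      obtain ⟨c₀, c₁, c₂, hx⟩ := h'.sp x
      obtain ⟨d₀, rfl⟩ := hs c₀
      obtain ⟨d₁, rfl⟩ := hs c₁
      obtain ⟨d₂, rfl⟩ := hs c₂
      exact ⟨d₀, d₁, d₂, hx⟩
  obtain ⟨φ, hφ⟩ := H36MT.Eq_hom h hcub
  have hev : ev θ' δ = ev θ' (fun i => algebraMap K k (δ i)) := rfl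
  have h2 := he (H36MT.Eq_mv φ.symm w) (by
    have h3 : dn K (dn k (H36MT.Eq_mv φ.symm w)) = dn K (H36MT.Eq_mv φ.symm w) := dn_dn _
    rw [h3, H36MT.Eq_dn]
    exact hw)
  rw [← hev] at h2
  have hδ' : ev θ' δ ≠ 0 := by
    rw [← hφ]
    exact (map_ne_zero φ).2 hδ
  rw [H38T1.eo_sc hδ'] at h2
  rw [H38T1.eo_sc hδ]
  unfold ord at h2 ⊢
  rw [H36MT.Eq_val, ← hφ, AlgEquiv.symm_apply_apply] at h2
  exact h2

theorem even_down {K M : Type} [Field K] [NumberField K] [Field M] [NumberField M] [Algebra K M]
    [IsGalois K M] {r : ℕ} (hr : Module.finrank K M = 2 ^ r) {a b : K}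
    (hirr : ∀ t : K, t ^ 3 + a * t + b ≠ 0) {v : HeightOneSpectrum (𝓞 K)} (hodd : OddP v)
    (hnr : ∀ V : HeightOneSpectrum (𝓞 M), dn K V = v → ¬ H73P2.Ram K V) {L : Type} [Field L]
    [NumberField L] [Algebra K L] {θ : L} (h : Cub K L a b θ) {LM : Type} [Field LM]
    [NumberField LM] [Algebra M LM] {θM : LM}
    (hM : Cub M LM (algebraMap K M a) (algebraMap K M b) θM) {δ : Fin 3 → K} (hδ : ev θ δ ≠ 0)
    (he : ∀ W' : HeightOneSpectrum (𝓞 LM), dn K (dn M W') = v →
      eo W' (sc (ev θM (fun i => algebraMap K M (δ i)))) = 0)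
    (w : HeightOneSpectrum (𝓞 L)) (hw : dn K w = v) : eo w (sc (ev θ δ)) = 0 := by
  have _ : FiniteDimensional K M := Module.Finite.of_restrictScalars_finite ℚ K M
  have hδ0 : δ ≠ 0 := by
    rintro rfl
    apply hδ
    simp [ev]
  have key : ∀ n : ℕ, ∀ (k : Type) [Field k] [NumberField k] [Algebra K k] [Algebra k M]
      [IsScalarTower K k M], Module.finrank K k = n → ∀ (L' : Type) [Field L'] [NumberField L']
      [Algebra k L'] (θ' : L'), Cub k L' (algebraMap K k a) (algebraMap K k b) θ' →
      (∀ W' : HeightOneSpectrum (𝓞 L'), dn K (dn k W') = v →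
        eo W' (sc (ev θ' (fun i => algebraMap K k (δ i)))) = 0) → eo w (sc (ev θ δ)) = 0 := by
    intro n
    induction n using Nat.strong_induction_on with
    | _ n ih =>
      intro k _ _ _ _ _ hn L' _ _ _ θ' h' he'
      by_cases h1 : Module.finrank K k = 1
      · exact Ev_base h1 h hδ hw L' θ' h' he'
      · obtain ⟨k₀, hk₀⟩ := exists_half (K := K) (N := M) (k' := k) hr h1
        have _ : FiniteDimensional K k := Module.Finite.of_restrictScalars_finite ℚ K k
        have _ : NumberField k₀ := NumberField.of_module_finite K k₀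
        have _ : IsScalarTower k₀ k M := inferInstance
        have _ : IsScalarTower K k₀ M := IsScalarTower.of_algebraMap_eq fun x => by
          rw [IsScalarTower.algebraMap_apply K k M, IsScalarTower.algebraMap_apply K k₀ k]
          rfl
        have hmul := Module.finrank_mul_finrank K k₀ k
        rw [hk₀] at hmul
        have hpos : 0 < Module.finrank K k₀ := Module.finrank_pos
        have hab : ∀ x : K, algebraMap K k x = algebraMap k₀ k (algebraMap K k₀ x) :=
          IsScalarTower.algebraMap_apply K k₀ k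
        have _ : IsScalarTower k₀ k L' := inferInstance
        have h'' : Cub k L' (algebraMap k₀ k (algebraMap K k₀ a))
            (algebraMap k₀ k (algebraMap K k₀ b)) θ' := by
          rw [← hab, ← hab]
          exact h'
        obtain ⟨L₀, _, _, _, _, _, θ₀, hc, hθ⟩ := exists_sub h''
        have Q : QS k₀ L₀ k L' (algebraMap K k₀ a) (algebraMap K k₀ b) θ₀ θ' :=
          ⟨hk₀, hc, h'', hθ⟩
        have f2 := Q.fin2
        have hne : ev θ₀ (fun i => algebraMap K k₀ (δ i)) ≠ 0 := by
          intro h0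
          obtain ⟨e0, e1, e2⟩ := hc.li _ _ _ h0
          apply hδ0
          funext i
          fin_cases i
          · exact (map_eq_zero _).1 e0
          · exact (map_eq_zero _).1 e1
          · exact (map_eq_zero _).1 e2
        refine ih (Module.finrank K k₀) (by omega) k₀ rfl L₀ θ₀ hc fun w₀ hw₀ => ?_
        obtain ⟨V, hV⟩ := exists_above (L := M) (dn k₀ w₀)
        have hKV : dn K V = v := by
          rw [← hw₀, ← hV]
          exact (dn_dn V).symm
        obtain ⟨h2, -⟩ := unram_mid (k := k₀) (hnr V hKV)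
        obtain ⟨D, ρ, hρ, hρk, hD⟩ := exists_gen (k' := k) hk₀ h2
        rw [hV] at hD
        have hodd' : OddP w₀ := by
          rw [oddP_dn (K := k₀), oddP_dn (K := K), hw₀]
          exact hodd
        refine even_unram Q f2 w₀ hodd' hρ hρk hD hne fun w' hw' => ?_
        have h3 := Q.coord (fun i => algebraMap K k₀ (δ i))
        rw [h3]
        have h4 := he' w' (by
          rw [← dn_sq (K := K) (k := k₀) (L := L₀), hw']
          exact hw₀)
        have h5 : (fun i => algebraMap k₀ k (algebraMap K k₀ (δ i))) =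
            fun i => algebraMap K k (δ i) := funext fun i => (hab _).symm
        rw [h5]
        exact h4
  exact key _ M rfl LM θM hM he

end H88AB
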